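import Mathlib

set_option autoImplicit false

namespace Pool.Agent.H.MP_c3bf79_al

section glue
variable (A : Type) [Ring A] (T : Type) [AddCommGroup T] [Module A T]

def Od : Submodule A T where
  carrier := {w | ∃ m : ℤ, Odd m ∧ m • w = 0}
  zero_mem' := ⟨1, odd_one, by simp⟩
  add_mem' := fun {a b} ⟨m, hm, p⟩ ⟨k, hk, q⟩ =>
    ⟨m * k, hm.mul hk, by rw [smul_add, mul_smul m k b, q, mul_comm, mul_smul, p]; simp⟩
  smul_mem' := fun d a ⟨m, hm, p⟩ => ⟨m, hm, by rw [smul_comm, p, smul_zero]⟩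

def Tw : Submodule A T where
  carrier := {w | ∃ k : ℕ, (2 ^ k : ℤ) • w = 0}
  zero_mem' := ⟨0, by simp⟩
  add_mem' := fun {a b} ⟨m, p⟩ ⟨k, q⟩ =>
    ⟨m + k, by rw [pow_add, smul_add, mul_smul _ _ b, q, mul_comm, mul_smul, p]; simp⟩
  smul_mem' := fun d a ⟨m, p⟩ => ⟨m, by rw [smul_comm, p, smul_zero]⟩

variable {A T}

lemma od_div {w : T} (h : w ∈ Od A T) (k : ℕ) : ∃ r : ℤ, (r * 2 ^ k) • w = w := by
  obtain ⟨m, ⟨t, rfl⟩, hm⟩ := h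
  obtain ⟨r, s, e⟩ := (show IsCoprime (2 : ℤ) (2 * t + 1) from ⟨-t, 1, by ring⟩).pow_left (m := k)
  exact ⟨r, by rw [eq_sub_of_add_eq e, sub_smul, mul_smul, hm]; simp⟩

lemma tw_div {w : T} (h : w ∈ Tw A T) : ∃ r : ℤ, (r * 25) • w = w := by
  obtain ⟨k, hk⟩ := h
  obtain ⟨r, s, e⟩ := (show IsCoprime (25 : ℤ) 2 from ⟨1, -12, by ring⟩).pow_right (n := k)
  exact ⟨r, by rw [eq_sub_of_add_eq e, sub_smul, mul_smul, hk]; simp⟩

lemma disj {w : T} (h : w ∈ Od A T) (h' : w ∈ Tw A T) : w = 0 := by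
  obtain ⟨k, hk⟩ := h'
  obtain ⟨r, hr⟩ := od_div h k
  rw [← hr, mul_smul, hk, smul_zero]

lemma split {w : T} (h : ∃ m : ℕ, m ≠ 0 ∧ m • w = 0) :
    ∃ a b : ℤ, a • w ∈ Od A T ∧ b • w ∈ Tw A T ∧ a • w + b • w = w := by
  obtain ⟨n, hn, h⟩ := h
  obtain ⟨k, m, ⟨t, rfl⟩, rfl⟩ := Nat.exists_eq_two_pow_mul_odd hn
  have h : ((2 : ℤ) ^ k * (2 * t + 1)) • w = 0 := by rw [← natCast_zsmul] at h; exact_mod_cast h
  obtain ⟨r, s, e⟩ := (show IsCoprime (2 : ℤ) (2 * t + 1) from ⟨-t, 1, by ring⟩).pow_left (m := k)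
  refine ⟨r * 2 ^ k, s * (2 * t + 1), ⟨2 * t + 1, ⟨t, rfl⟩, ?_⟩, ⟨k, ?_⟩, by rw [← add_smul, e, one_smul]⟩
  · rw [smul_smul, show (2 * (t : ℤ) + 1) * (r * 2 ^ k) = r * (2 ^ k * (2 * t + 1)) by ring,
      mul_smul, h, smul_zero]
  · rw [smul_smul, show 2 ^ k * (s * (2 * (t : ℤ) + 1)) = s * (2 ^ k * (2 * t + 1)) by ring,
      mul_smul, h, smul_zero]

variable {T' : Type} [AddCommGroup T'] [Module A T']

lemma map_od (f : T →ₗ[A] T') {w : T} (h : w ∈ Od A T) : f w ∈ Od A T' :=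
  h.imp fun m hm => ⟨hm.1, by rw [← map_zsmul, hm.2, map_zero]⟩

lemma map_tw (f : T →ₗ[A] T') {w : T} (h : w ∈ Tw A T) : f w ∈ Tw A T' :=
  h.imp fun m hm => by rw [← map_zsmul, hm, map_zero]

lemma glue (t : ∀ w : T, ∃ m : ℕ, m ≠ 0 ∧ m • w = 0) (t' : ∀ w : T', ∃ m : ℕ, m ≠ 0 ∧ m • w = 0)
    (α γ : T →ₗ[A] T') (β δ : T' →ₗ[A] T) (h1 : ∀ w, β (α w) = (2 : ℤ) • w)
    (h2 : ∀ w, α (β w) = (2 : ℤ) • w) (h3 : ∀ w, δ (γ w) = (25 : ℤ) • w)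
    (h4 : ∀ w, γ (δ w) = (25 : ℤ) • w) : ∃ φ : T ≃ₗ[A] T',
      (∀ w, ∃ a b : ℤ, φ w = a • α w + b • γ w) ∧ ∀ w, ∃ a b : ℤ, φ (a • β w + b • δ w) = w := by
  have hc : IsCompl (Od A T) (Tw A T) := ⟨Submodule.disjoint_def.2 fun _ => disj,
    codisjoint_iff.2 (eq_top_iff.2 fun w _ => by
      obtain ⟨a, b, p, q, e⟩ := split (A := A) (t w)
      exact Submodule.mem_sup.2 ⟨_, p, _, q, e⟩)⟩
  let f : T →ₗ[A] T' := LinearMap.ofIsCompl hc (α ∘ₗ Submodule.subtype _) (γ ∘ₗ Submodule.subtype _)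
  have hf : ∀ p ∈ Od A T, ∀ q ∈ Tw A T, f (p + q) = α p + γ q := fun p hp q hq => by
    rw [map_add, LinearMap.ofIsCompl_apply_left hc (u := ⟨p, hp⟩),
      LinearMap.ofIsCompl_apply_right hc (v := ⟨q, hq⟩)]; rfl
  have hs : ∀ w, ∃ a b : ℤ, f (a • β w + b • δ w) = w := fun w => by
    obtain ⟨a, b, p, q, e⟩ := split (A := A) (t' w)
    obtain ⟨r, hr⟩ := od_div p 1
    obtain ⟨s, hs⟩ := tw_div q
    refine ⟨r * a, s * b, ?_⟩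
    rw [mul_smul, mul_smul, ← map_zsmul β a, ← map_zsmul δ b, hf _ (zsmul_mem (map_od β p) r) _
      (zsmul_mem (map_tw δ q) s), map_zsmul α, map_zsmul γ, h2, h4, ← mul_smul r, ← mul_smul s,
      hs, ← pow_one (2 : ℤ), hr, e]
  refine ⟨LinearEquiv.ofBijective f ⟨(injective_iff_map_eq_zero f).2 fun w hw => ?_,
    fun w => (hs w).elim fun _ h => h.elim fun _ h => ⟨_, h⟩⟩, fun w => ?_, hs⟩
  · obtain ⟨a, b, p, q, e⟩ := split (A := A) (t w)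
    rw [← e, hf _ p _ q] at hw
    have z1 : α (a • w) = 0 :=
      disj (map_od α p) (eq_neg_of_add_eq_zero_left hw ▸ neg_mem (map_tw γ q))
    have z2 : γ (b • w) = 0 := by simpa only [z1, zero_add] using hw
    obtain ⟨r, hr⟩ := od_div p 1
    obtain ⟨s, hs⟩ := tw_div q
    rw [pow_one, mul_smul, ← h1, z1, map_zero, smul_zero] at hr
    rw [mul_smul, ← h3, z2, map_zero, smul_zero] at hs
    rw [← e, ← hr, ← hs, add_zero]
  · obtain ⟨a, b, p, q, e⟩ := split (A := A) (t w)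
    exact ⟨a, b, by rw [← map_zsmul, ← map_zsmul, ← hf _ p _ q, e]; rfl⟩

end glue

end Pool.Agent.H.MP_c3bf79_al
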