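import Mathlib
import Pool.Agent.H.MP_c3bf79_al.Glue

set_option autoImplicit false
open Polynomial Pool.Agent.H.MP_c3bf79_al

namespace Pool.Agent.H.MP_c3bf79_al.Main

/-- the divided power X^n / n! -/
noncomputable def xq (n : ℕ) : ℚ[X] := monomial n (1 / (n.factorial : ℚ))

lemma xq_mul (n m : ℕ) : xq n * xq m = ((n + m).choose n : ℤ) • xq (n + m) := by
  rw [xq, xq, xq, monomial_mul_monomial, smul_monomial, ← Nat.add_choose_mul_factorial_mul_factorial,
    Nat.choose_symm_add]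
  have := Nat.choose_pos (Nat.le_add_left m n)
  congr 1
  simp; field_simp

/-- the divided power algebra over the integers: the additive span of the X^n / n! -/
noncomputable def D : Subring ℚ[X] where
  toAddSubgroup := AddSubgroup.closure (Set.range xq)
  one_mem' := AddSubgroup.subset_closure ⟨0, by simp [xq]⟩
  mul_mem' := fun {a b} ha hb => by
    induction ha, hb using AddSubgroup.closure_induction₂ with
    | mem a b ha hb =>
      obtain ⟨n, rfl⟩ := ha
      obtain ⟨m, rfl⟩ := hb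
      rw [xq_mul]
      exact zsmul_mem (AddSubgroup.subset_closure (Set.mem_range_self _)) _
    | zero_left => simp
    | zero_right => simp
    | add_left a b c _ _ _ p q => rw [add_mul]; exact AddSubgroup.add_mem _ p q
    | add_right a b c _ _ _ p q => rw [mul_add]; exact AddSubgroup.add_mem _ p q
    | neg_left a b _ _ p => rw [neg_mul]; exact AddSubgroup.neg_mem _ p
    | neg_right a b _ _ p => rw [mul_neg]; exact AddSubgroup.neg_mem _ p

noncomputable def x (n : ℕ) : D := ⟨xq n, AddSubgroup.subset_closure ⟨n, rfl⟩⟩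

/-- relations x u = 0 and x v = c x^[5] u, with u in degree 0 and v in degree 4 -/
noncomputable def R (c : ℤ) : Submodule D (D × D) :=
  Submodule.span D {(x 1, 0), (-(c • x 5), x 1)}

abbrev N (c : ℤ) : Type := (D × D) ⧸ R c

/-- degree j part: image of the degree j part of D + D[-4] -/
noncomputable def deg (c : ℤ) (j : ℕ) : AddSubgroup (N c) :=
  AddSubgroup.closure {w | w = (R c).mkQ (x j, 0) ∨ ∃ i, i + 4 = j ∧ w = (R c).mkQ (0, x i)}

/-- the truncation to degrees at least n -/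
noncomputable def tau (c : ℤ) (n : ℕ) : Submodule D (N c) :=
  Submodule.span D {w | ∃ j, n ≤ j ∧ w ∈ deg c j}

lemma x_mul (n m : ℕ) : x n * x m = ((n + m).choose n : ℤ) • x (n + m) := Subtype.ext (xq_mul n m)

lemma int_coeff (d : D) (n : ℕ) : ∃ z : ℤ, (n.factorial : ℚ) * d.1.coeff n = z := by
  obtain ⟨d, hd⟩ := d
  induction hd using AddSubgroup.closure_induction with
  | mem a ha =>
    obtain ⟨m, rfl⟩ := ha
    by_cases h : m = n
    · exact ⟨1, by simp [xq, h, Nat.factorial_ne_zero]⟩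
    · exact ⟨0, by simp [xq, coeff_monomial, h]⟩
  | zero => exact ⟨0, by simp⟩
  | add a b _ _ p q =>
    obtain ⟨z, p⟩ := p; obtain ⟨w, q⟩ := q
    exact ⟨z + w, by simp [mul_add, p, q]⟩
  | neg a _ p => obtain ⟨z, p⟩ := p; exact ⟨-z, by simp [p]⟩

lemma inv_R {c : ℤ} {w : D × D} (h : w ∈ R c) : w.1.1.coeff 0 = 0 ∧ w.2.1.coeff 0 = 0 ∧
    ∃ z : ℤ, 120 * w.1.1.coeff 5 + c * w.2.1.coeff 1 = 5 * z := by
  obtain ⟨a, b, rfl⟩ := Submodule.mem_span_pair.1 h
  obtain ⟨z, hz⟩ := int_coeff a 4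
  refine ⟨by simp [x, xq, coeff_monomial], by simp [x, xq, coeff_monomial], z, ?_⟩
  have e1 := coeff_mul_monomial a.1 1 4 (1 : ℚ)
  have e2 := coeff_mul_monomial b.1 1 0 (1 : ℚ)
  have e3 : (b.1 * (c * monomial 5 (120 : ℚ)⁻¹)).coeff 5 = c * b.1.coeff 0 * 120⁻¹ := by
    rw [mul_left_comm, coeff_intCast_mul, mul_assoc]
    exact congrArg _ (coeff_mul_monomial b.1 5 0 _)
  norm_num [Nat.factorial] at hz e1 e2
  simp [x, xq, Nat.factorial, ← hz, e1, e2, e3]
  ring

/-- the map u to a u, v to b v -/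
noncomputable def hom (c c' a b : ℤ) (h : (5 : ℤ) ∣ b * c' - a * c) : N c →ₗ[D] N c' :=
  (R c).mapQ (R c') ((a • LinearMap.id).prodMap (b • LinearMap.id)) (by
    rw [R, Submodule.span_le]
    obtain ⟨t, ht⟩ := h
    rintro _ (rfl | rfl)
    · exact Submodule.mem_span_pair.2 ⟨a, 0, by simp⟩
    · refine Submodule.mem_span_pair.2 ⟨t • x 4, b, ?_⟩
      have := x_mul 4 1
      norm_num [Nat.choose] at this
      have e : (b : D) * c' - a * c = 5 * t := by exact_mod_cast ht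
      refine Prod.ext ?_ (by simp)
      simp
      linear_combination (t : D) * this - x 5 * e)

lemma hom_mk (c c' a b : ℤ) (h : (5 : ℤ) ∣ b * c' - a * c) (p q : D) :
    hom c c' a b h ((R c).mkQ (p, q)) = (R c').mkQ (a • p, b • q) := rfl

lemma hom_hom (c c' a b a' b' m : ℤ) (h) (h') (e : a' * a = m) (e' : b' * b = m) (w : N c) :
    hom c' c a' b' h' (hom c c' a b h w) = m • w := by
  obtain ⟨⟨p, q⟩, rfl⟩ := (R c).mkQ_surjective w
  rw [hom_mk, hom_mk, smul_smul, smul_smul, e, e', ← map_zsmul]; rfl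

lemma mu (c : ℤ) (j : ℕ) : (R c).mkQ (x j, 0) ∈ deg c j := AddSubgroup.subset_closure (.inl rfl)

lemma mv (c : ℤ) (i : ℕ) : (R c).mkQ (0, x i) ∈ deg c (i + 4) :=
  AddSubgroup.subset_closure (.inr ⟨i, rfl, rfl⟩)

lemma hom_deg (c c' a b : ℤ) (h) (j : ℕ) {w : N c} (hw : w ∈ deg c j) :
    hom c c' a b h w ∈ deg c' j := by
  induction hw using AddSubgroup.closure_induction with
  | zero => rw [map_zero]; exact zero_mem _
  | add p q _ _ hp hq => rw [map_add]; exact add_mem hp hq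
  | neg p _ hp => rw [map_neg]; exact neg_mem hp
  | mem w hw =>
    rcases hw with rfl | ⟨i, hi, rfl⟩
    · rw [hom_mk, show (a • x j, b • (0 : D)) = a • (x j, 0) by simp, map_zsmul]
      exact zsmul_mem (mu c' j) a
    · rw [hom_mk, show (a • (0 : D), b • x i) = b • (0, x i) by simp, map_zsmul]
      exact zsmul_mem (hi ▸ mv c' i) b

lemma hom_tau (c c' a b : ℤ) (h) (n : ℕ) {w : N c} (hw : w ∈ tau c n) :
    hom c c' a b h w ∈ tau c' n := by
  refine (show tau c n ≤ (tau c' n).comap (hom c c' a b h) from Submodule.span_le.2 ?_) hw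
  rintro w ⟨j, hj, hw⟩
  exact Submodule.subset_span ⟨j, hj, hom_deg _ _ _ _ _ j hw⟩

lemma tors (c : ℤ) {w : N c} (hw : w ∈ tau c 5) : ∃ m : ℕ, m ≠ 0 ∧ m • w = 0 := by
  have hu : ∀ j : ℕ, (j + 1) • (R c).mkQ (x (j + 1), 0) = 0 := fun j => by
    rw [← map_nsmul]
    refine (Submodule.Quotient.mk_eq_zero _).2 (Submodule.mem_span_pair.2 ⟨x j, 0, ?_⟩)
    simp [x_mul]
  have hv : ∀ j : ℕ, (5 * (j + 1)) • (R c).mkQ (0, x (j + 1)) = 0 := fun j => by
    rw [← map_nsmul]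
    refine (Submodule.Quotient.mk_eq_zero _).2
      (Submodule.mem_span_pair.2 ⟨c • (x j * x 4), 5 * x j, ?_⟩)
    have := x_mul 4 1
    norm_num [Nat.choose] at this
    have h2 := x_mul j 1
    refine Prod.ext ?_ ?_
    · simp; linear_combination (c : D) * x j * this
    · simp at h2 ⊢; linear_combination 5 * h2
  have add : ∀ a b : N c, (∃ m : ℕ, m ≠ 0 ∧ m • a = 0) → (∃ m : ℕ, m ≠ 0 ∧ m • b = 0) →
      ∃ m : ℕ, m ≠ 0 ∧ m • (a + b) = 0 := fun a b ⟨m, hm, p⟩ ⟨k, hk, q⟩ =>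
    ⟨m * k, mul_ne_zero hm hk, by rw [smul_add, mul_smul m k b, q, mul_comm, mul_smul, p]; simp⟩
  induction hw using Submodule.span_induction with
  | zero => exact ⟨1, one_ne_zero, by simp⟩
  | add a b _ _ p q => exact add a b p q
  | smul d a _ p => obtain ⟨m, hm, p⟩ := p; exact ⟨m, hm, by rw [smul_comm, p, smul_zero]⟩
  | mem w hw =>
    obtain ⟨j, hj, hw⟩ := hw
    induction hw using AddSubgroup.closure_induction with
    | zero => exact ⟨1, one_ne_zero, by simp⟩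
    | add a b _ _ p q => exact add a b p q
    | neg a _ p => obtain ⟨m, hm, p⟩ := p; exact ⟨m, hm, by rw [smul_neg, p, neg_zero]⟩
    | mem w hw =>
      rcases hw with rfl | ⟨i, rfl, rfl⟩
      · obtain ⟨j, rfl⟩ : ∃ i, j = i + 1 := ⟨j - 1, by omega⟩
        exact ⟨_, by omega, hu j⟩
      · obtain ⟨j, rfl⟩ : ∃ j, i = j + 1 := ⟨i - 1, by omega⟩
        exact ⟨_, by omega, hv j⟩


lemma deg0 {c : ℤ} {w : N c} (h : w ∈ deg c 0) : ∃ a : ℤ, w = (R c).mkQ (a • x 0, 0) := by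
  have : {w | w = (R c).mkQ (x 0, 0) ∨ ∃ i, i + 4 = 0 ∧ w = (R c).mkQ (0, x i)} =
      {(R c).mkQ (x 0, 0)} := by ext; simp
  rw [deg, this] at h
  obtain ⟨a, rfl⟩ := AddSubgroup.mem_closure_singleton.1 h
  exact ⟨a, by rw [← map_zsmul]; simp⟩

lemma deg4 {c : ℤ} {w : N c} (h : w ∈ deg c 4) :
    ∃ t b : ℤ, w = (R c).mkQ (t • x 4, b • x 0) := by
  have : {w | w = (R c).mkQ (x 4, 0) ∨ ∃ i, i + 4 = 4 ∧ w = (R c).mkQ (0, x i)} =
      {(R c).mkQ (x 4, 0), (R c).mkQ (0, x 0)} := by ext; simp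
  rw [deg, this] at h
  obtain ⟨a, b, rfl⟩ := AddSubgroup.mem_closure_pair.1 h
  exact ⟨a, b, by rw [← map_zsmul, ← map_zsmul, ← map_add]; simp⟩

theorem main :
    (∃ φ : tau 1 5 ≃ₗ[D] tau 2 5, ∀ j w, w.1 ∈ deg 1 j ↔ (φ w).1 ∈ deg 2 j) ∧
    ¬ ∃ ψ : N 1 ≃ₗ[D] N 2, ∀ j w, w ∈ deg 1 j ↔ ψ w ∈ deg 2 j := by
  constructor
  · obtain ⟨φ, h1, h2⟩ := glue (fun w : tau 1 5 => (tors 1 w.2).imp fun m h => ⟨h.1, Subtype.ext h.2⟩)
      (fun w : tau 2 5 => (tors 2 w.2).imp fun m h => ⟨h.1, Subtype.ext h.2⟩)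
      ((hom 1 2 2 1 (by decide)).restrict fun _ => hom_tau _ _ _ _ _ 5)
      ((hom 1 2 5 5 (by decide)).restrict fun _ => hom_tau _ _ _ _ _ 5)
      ((hom 2 1 1 2 (by decide)).restrict fun _ => hom_tau _ _ _ _ _ 5)
      ((hom 2 1 5 5 (by decide)).restrict fun _ => hom_tau _ _ _ _ _ 5)
      (fun w => Subtype.ext (hom_hom _ _ _ _ _ _ 2 (by decide) (by decide) rfl rfl _))
      (fun w => Subtype.ext (hom_hom _ _ _ _ _ _ 2 (by decide) (by decide) rfl rfl _))
      (fun w => Subtype.ext (hom_hom _ _ _ _ _ _ 25 (by decide) (by decide) rfl rfl _))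
      (fun w => Subtype.ext (hom_hom _ _ _ _ _ _ 25 (by decide) (by decide) rfl rfl _))
    refine ⟨φ, fun j w => ⟨fun h => ?_, fun h => ?_⟩⟩
    · obtain ⟨a, b, e⟩ := h1 w
      rw [e]
      exact add_mem (zsmul_mem (hom_deg 1 2 2 1 (by decide) j h) a)
        (zsmul_mem (hom_deg 1 2 5 5 (by decide) j h) b)
    · obtain ⟨a, b, e⟩ := h2 (φ w)
      rw [← φ.injective e]
      exact add_mem (zsmul_mem (hom_deg 2 1 1 2 (by decide) j h) a)
        (zsmul_mem (hom_deg 2 1 5 5 (by decide) j h) b)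
  · rintro ⟨ψ, h⟩
    have x0 : x 0 = 1 := Subtype.ext (by simp [x, xq])
    have m0 : ∀ c, (R c).mkQ (x 0, 0) ∈ deg c 0 := fun c => mu c 0
    have m4 : ∀ c, (R c).mkQ (0, x 0) ∈ deg c 4 := fun c => mv c 0
    obtain ⟨a, ha⟩ := deg0 ((h 0 _).1 (m0 1))
    obtain ⟨t, b, hb⟩ := deg4 ((h 4 _).1 (m4 1))
    have hψ : ∀ p q : D, ψ ((R 1).mkQ (p, q)) = (R 2).mkQ (p * (a + 0) + q * (t * x 4), q * b) := by
      intro p q
      rw [show (p, q) = p • (x 0, (0 : D)) + q • (0, x 0) by simp [x0], map_add, map_smul, map_smul,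
        map_add, map_smul, map_smul, ha, hb, ← map_smul, ← map_smul, ← map_add]
      simp [x0]
    obtain ⟨a', ha'⟩ := deg0 ((h 0 (ψ.symm _)).2 (by simpa using m0 2))
    obtain ⟨t', b', hb'⟩ := deg4 ((h 4 (ψ.symm _)).2 (by simpa using m4 2))
    rw [ψ.symm_apply_eq, hψ] at ha' hb'
    have e1 := (inv_R ((Submodule.Quotient.eq _).1 ha')).1
    have e2 := (inv_R ((Submodule.Quotient.eq _).1 hb')).2.1
    have e3 : (R 1).mkQ (-((1 : ℤ) • x 5), x 1) = 0 :=
      (Submodule.Quotient.mk_eq_zero _).2 (Submodule.subset_span (by simp))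
    have e4 := hψ (-((1 : ℤ) • x 5)) (x 1)
    rw [e3, map_zero] at e4
    obtain ⟨z, e5⟩ := (inv_R ((Submodule.Quotient.mk_eq_zero _).1 e4.symm)).2.2
    simp [x0] at e1 e2
    have f1 : a' * a = 1 := by exact_mod_cast (sub_eq_zero.1 e1).symm
    have f2 : b' * b = 1 := by exact_mod_cast (sub_eq_zero.1 e2).symm
    have f3 : -a + 5 * t + 2 * b = 5 * z := by
      have g1 : -((1 : ℤ) • x 5) * (↑a + 0) + x 1 * (↑t * x 4) = (-a + 5 * t) • x 5 := by
        have := x_mul 1 4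
        norm_num [Nat.choose] at this
        simp only [zsmul_eq_mul]
        push_cast
        linear_combination (t : D) * this
      have g2 : x 1 * (b : D) = b • x 1 := by rw [zsmul_eq_mul, mul_comm]
      rw [g1, g2] at e5
      have g3 : ∀ (k : ℤ) (n : ℕ), ((k • x n : D) : ℚ[X]).coeff n = k * (1 / n.factorial) := by
        intro k n
        rw [AddSubgroupClass.coe_zsmul, coeff_smul, zsmul_eq_mul]
        exact congrArg _ (coeff_monomial_same _ _)
      rw [g3, g3] at e5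
      simp only [Nat.factorial] at e5
      have : ((-a + 5 * t + 2 * b : ℤ) : ℚ) = ((5 * z : ℤ) : ℚ) := by
        push_cast at e5 ⊢
        linear_combination e5
      exact_mod_cast this
    rcases Int.eq_one_or_neg_one_of_mul_eq_one' f1 with ⟨-, rfl⟩ | ⟨-, rfl⟩ <;>
      rcases Int.eq_one_or_neg_one_of_mul_eq_one' f2 with ⟨-, rfl⟩ | ⟨-, rfl⟩ <;> omega

end Pool.Agent.H.MP_c3bf79_al.Main
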